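import Pool.Agent.V1157.BBF.AJChain

/-!
# Bloch-Beilinson filtrations: one variety at a time
-/

open CategoryTheory AlgebraicGeometry

universe u v w

namespace Pool.Agent.V11244.BB

open Pool.Agent.H914 Pool.Agent.H914.VarClass Pool.Agent.H914.VarClass.Obj Pool.Agent.W492.BB
  Pool.Agent.W550.Corr Pool.Agent.TH133 Pool.Agent.V1157.MJ Pool.Agent.Y148.BB
  Pool.Agent.V1157.BBF

set_option linter.unusedSectionVars false

variable {k : Type u} [Field k] {𝒱 : VarClass k}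

/-- The Chow groups of `X` are a retract of those of `P` through correspondences of degree zero:
there are `f ∈ CH^(dim X)(X × P)` and `g ∈ CH^(dim P)(P × X)` such that `g_* f_* z = z` for all
`z ∈ CH^*(X)`. (For example the motive of `X` is a direct summand of the motive of `P`, or `P` is
the product of `X` and another variety, or there is a morphism `P → X` of finite degree.) -/
def IsRetract (C : TheoryData.{u, v, 0} 𝒱 ℚ) (X P : 𝒱.Obj) : Prop :=
  ∃ (f : C.A (X.prod P)) (g : C.A (P.prod X)), C.Deg X.dim f ∧ C.Deg P.dim g ∧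
    ∀ z : C.A X, C.act g (C.act f z) = z

/-- `G j ν` is the step `F^ν CH^j(P)` of a Bloch-Beilinson filtration on the Chow groups of the one
variety `P`: conditions 1 and 2 for `P`, and conditions 3 and 4 for the self-correspondences of `P`
(of all degrees). -/
structure IsBBOne {C : TheoryData.{u, v, 0} 𝒱 ℚ} {K : Type w} [Field K]
    (H : WeilTheoryData.{u, v, w} C K) (N : ∀ X : 𝒱.Obj, ℕ → Submodule ℚ (C.A X)) (P : 𝒱.Obj)
    (G : ℕ → ℕ → Submodule ℚ (C.A P)) : Prop where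
  anti : ∀ j ν : ℕ, G j (ν + 1) ≤ G j ν
  zero : ∀ (j : ℕ) (z : C.A P), z ∈ G j 0 ↔ C.Deg j z
  one : ∀ (j : ℕ) (z : C.A P), z ∈ G j 1 ↔ C.Deg j z ∧ H.cl z = 0
  two : ∀ j : ℕ, G j 2 = N P j
  top : ∀ j : ℕ, G j (j + 1) = ⊥
  stable : ∀ (j i ν : ℕ) (Γ : C.A (P.prod P)), C.Deg (P.dim + i - j) Γ →
    ∀ z ∈ G j ν, C.act Γ z ∈ G i ν
  shift : ∀ (j i ν : ℕ) (Γ : C.A (P.prod P)), C.Deg (P.dim + i - j) Γ →
    Kills H Γ (2 * j - ν) → ∀ z ∈ G j ν, C.act Γ z ∈ G i (ν + 1)

/-- A weak filtration for the one variety `P` and the one codimension `j`: subspaces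
`G l ν ⊆ CH^*(P)`, `ν ≥ 2`, such that `G l 2` contains the kernel of the Abel-Jacobi map of
`CH^l(P)`, every correspondence from `CH^l(P)` to `CH^i(P)` which is zero on `H^(2l-ν)(P)` maps
`G l ν` to `G i (ν + 1)`, and `G j (j + 1) = 0`. Nothing else is assumed. -/
def IsWeakBBOne {C : TheoryData.{u, v, 0} 𝒱 ℚ} {K : Type w} [Field K]
    (H : WeilTheoryData.{u, v, w} C K) (N : ∀ X : 𝒱.Obj, ℕ → Submodule ℚ (C.A X)) (P : 𝒱.Obj)
    (j : ℕ) (G : ℕ → ℕ → Submodule ℚ (C.A P)) : Prop :=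
  (∀ l, N P l ≤ G l 2) ∧
  (∀ (l i ν : ℕ) (Γ : C.A (P.prod P)), 2 ≤ ν → C.Deg (P.dim + i - l) Γ →
    Kills H Γ (2 * l - ν) → ∀ z ∈ G l ν, C.act Γ z ∈ G i (ν + 1)) ∧
  G j (j + 1) = ⊥

/-- `SelfChain H N P n j z`: the class `z ∈ CH^j(P)` is obtained from a class in the kernel of the
Abel-Jacobi map of some `CH^l(P)` by `n - 2` self-correspondences of `P` (of any degrees), the
correspondence applied at the `r`-th step (`r = 2, …, n - 1`), to a class in `CH^l(P)`, being zero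
on `H^(2l-r)(P)`. -/
inductive SelfChain {C : TheoryData.{u, v, 0} 𝒱 ℚ} {K : Type w} [Field K]
    (H : WeilTheoryData.{u, v, w} C K) (N : ∀ X : 𝒱.Obj, ℕ → Submodule ℚ (C.A X)) (P : 𝒱.Obj) :
    ℕ → ℕ → C.A P → Prop
  | nil (j : ℕ) (z : C.A P) (hz : z ∈ N P j) : SelfChain H N P 2 j z
  | cons (r l j : ℕ) (z : C.A P) (Γ : C.A (P.prod P)) (hz : SelfChain H N P r l z)
      (hΓ : C.Deg (P.dim + j - l) Γ) (hk : Kills H Γ (2 * l - r)) :
      SelfChain H N P (r + 1) j (C.act Γ z)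

variable {C : TheoryData.{u, v, 0} 𝒱 ℚ} {K : Type w} [Field K]
  [hC : IsChowProj C] {H : WeilTheoryData.{u, v, w} C K} [hH : IsWeilProj H]
  {X Y Z W P Q : 𝒱.Obj} {N : ∀ X : 𝒱.Obj, ℕ → Submodule ℚ (C.A X)}

lemma IsRetract.of_summand (h : ∃ (f : C.A (X.prod P)) (g : C.A (P.prod X)),
    C.Deg X.dim f ∧ C.Deg P.dim g ∧ C.comp f g = dg C X) : IsRetract C X P := by
  obtain ⟨f, g, hf, hg, h⟩ := h
  refine ⟨f, g, hf, hg, fun z => ?_⟩
  rw [← C.act_comp, h, act_dg]

lemma IsRetract.refl (X : 𝒱.Obj) : IsRetract C X X :=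
  ⟨dg C X, dg C X, dg_mem C X, dg_mem C X, fun z => by rw [act_dg, act_dg]⟩

include hC hH in
lemma IsRetract.trans'
    (h : IsRetract C X Q) (h' : IsRetract C Q P) : IsRetract C X P := by
  obtain ⟨f, g, hf, hg, h1⟩ := h
  obtain ⟨f', g', hf', hg', h2⟩ := h'
  have e1 : C.comp f f' ∈ C.gr (X.prod P) (X.dim + (0 + 0)) :=
    comp_mem' (H := H) (by simpa using hf) (by simpa using hf')
  have e2 : C.comp g' g ∈ C.gr (P.prod X) (P.dim + (0 + 0)) :=
    comp_mem' (H := H) (by simpa using hg') (by simpa using hg)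
  refine ⟨C.comp f f', C.comp g' g, by simpa using e1, by simpa using e2, fun z => ?_⟩
  rw [C.act_comp, C.act_comp, h2, h1]

include hC hH

lemma retract_fst (X Y : 𝒱.Obj) :
    IsRetract C X (X.prod Y) := by
  obtain ⟨a, ha, ha1, -⟩ := exists_deg_one C Y
  obtain ⟨f, hf, hf1, -⟩ := Realised.pull (H := H) (fst X Y)
  obtain ⟨g, hg, hg1, -⟩ := (Realised.mul (H := H) (X := X.prod Y)
    (C.pull_mem (snd X Y) ha)).comp (Realised.push (H := H) (fst X Y))
  have e1 : ((X.prod Y).dim : ℤ) + ((Y.dim : ℤ) + (X.dim - (X.prod Y).dim)) = (X.prod Y).dim := by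
    rw [dim_prod]; push_cast; ring
  rw [e1] at hg
  refine ⟨f, g, by simpa using hf, hg, fun z => ?_⟩
  rw [hf1, hg1]
  change C.push (fst X Y) (C.pull (snd X Y) a * C.pull (fst X Y) z) = z
  rw [C.proj_right, ha1, one_mul]

lemma retract_snd (X Y : 𝒱.Obj) :
    IsRetract C Y (X.prod Y) := by
  obtain ⟨a, ha, -, ha1⟩ := exists_deg_one C X
  obtain ⟨f, hf, hf1, -⟩ := Realised.pull (H := H) (snd X Y)
  obtain ⟨g, hg, hg1, -⟩ := (Realised.mul (H := H) (X := X.prod Y)
    (C.pull_mem (fst X Y) ha)).comp (Realised.push (H := H) (snd X Y))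
  have e1 : ((X.prod Y).dim : ℤ) + ((X.dim : ℤ) + (Y.dim - (X.prod Y).dim)) = (X.prod Y).dim := by
    rw [dim_prod]; push_cast; ring
  rw [e1] at hg
  refine ⟨f, g, by simpa using hf, hg, fun z => ?_⟩
  rw [hf1, hg1]
  change C.push (snd X Y) (C.pull (fst X Y) a * C.pull (snd X Y) z) = z
  rw [C.proj_right, ha1, one_mul]

/-- Finitely many varieties are retracts of one variety. -/
lemma exists_common (X : 𝒱.Obj)
    (L : List 𝒱.Obj) : ∃ Q : 𝒱.Obj, IsRetract C X Q ∧ ∀ Z ∈ L, IsRetract C Z Q := by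
  induction L with
  | nil => exact ⟨X, IsRetract.refl X, by simp⟩
  | cons Y L ih =>
    obtain ⟨Q, h1, h2⟩ := ih
    refine ⟨Y.prod Q, h1.trans' (H := H) (retract_snd (H := H) Y Q), ?_⟩
    intro Z hZ
    rcases List.mem_cons.1 hZ with rfl | hZ
    · exact retract_fst (H := H) Z Q
    · exact (h2 Z hZ).trans' (H := H) (retract_snd (H := H) Y Q)

/-- A chain through several varieties becomes a chain of self-correspondences of a variety which has
all these varieties as retracts. -/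
lemma chain_to (hN : IsAbelJacobiKernel H N) {n : ℕ} {X : 𝒱.Obj} {j : ℕ} {z : C.A X}
    (h : AJChain H N n X j z) : ∃ L : List 𝒱.Obj, ∀ P : 𝒱.Obj, (∀ Z ∈ L, IsRetract C Z P) →
      ∀ f : C.A (X.prod P), C.Deg X.dim f → SelfChain H N P n j (C.act f z) := by
  induction h with
  | nil X j z hz =>
    refine ⟨[], fun P _ f hf => SelfChain.nil j _ (hN.stable X P j j f ?_ z hz)⟩
    rwa [add_sub_cancel_right]
  | cons r Z X l j z Γ hz hΓ hk ih =>
    obtain ⟨L, hL⟩ := ih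
    refine ⟨Z :: L, fun P hP f hf => ?_⟩
    obtain ⟨f₀, g₀, hf₀, hg₀, h0⟩ := hP Z List.mem_cons_self
    have h1 := hL P (fun W hW => hP W (List.mem_cons_of_mem _ hW)) f₀ hf₀
    have hΓ' : Γ ∈ C.gr (Z.prod X) (Z.dim + ((j : ℤ) - l)) := by
      rw [← add_sub_assoc]; exact hΓ
    have hc1 : C.comp g₀ Γ ∈ C.gr (P.prod X) (P.dim + (0 + ((j : ℤ) - l))) :=
      comp_mem' (H := H) (by simpa using hg₀) hΓ'
    have hc2 : C.comp (C.comp g₀ Γ) f ∈ C.gr (P.prod P) (P.dim + (0 + ((j : ℤ) - l) + 0)) :=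
      comp_mem' (H := H) hc1 (by simpa using hf)
    have e1 : C.act f (C.act Γ z) = C.act (C.comp (C.comp g₀ Γ) f) (C.act f₀ z) := by
      rw [C.act_comp, C.act_comp, h0]
    rw [e1]
    refine SelfChain.cons r l j _ _ h1 ?_ ?_
    · have e2 : (P.dim : ℤ) + (0 + ((j : ℤ) - l) + 0) = P.dim + j - l := by ring
      rw [e2] at hc2
      exact hc2
    · apply kills_comp
      intro a ha
      rw [actH_comp]
      apply hk
      have h3 := actH_mem H (e := 0) (m := 2 * (l : ℤ) - r) (Γ := g₀) (by simpa using hg₀) ha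
      simpa using h3

/-- **One variety and one codimension at a time.** -/
theorem tfae_one (hN : IsAbelJacobiKernel H N) (S : 𝒱.Obj → Prop)
    (hS : ∀ X : 𝒱.Obj, ∃ P, S P ∧ IsRetract C X P) :
    List.TFAE [
      ∃ F, IsBlochBeilinsonOn H N (fun _ => True) F,
      ∀ P, S P → ∃ G, IsBBOne H N P G,
      ∀ P, S P → ∀ j : ℕ, 2 ≤ j → ∃ G, IsWeakBBOne H N P j G,
      ∀ P, S P → ∀ (j : ℕ) (z : C.A P), 2 ≤ j → SelfChain H N P (j + 1) j z → z = 0] := by
  tfae_have 1 → 2 := by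
    rintro ⟨F, hF⟩ P _
    exact ⟨F P,
      { anti := hF.anti P trivial
        zero := hF.zero P trivial
        one := hF.one P trivial
        two := hF.two P trivial
        top := hF.top P trivial
        stable := hF.stable P P trivial trivial
        shift := hF.shift P P trivial trivial }⟩
  tfae_have 2 → 3 := by
    intro h P hP j _
    obtain ⟨G, hG⟩ := h P hP
    exact ⟨G, fun l => (hG.two l).ge, fun l i ν Γ _ hΓ hk => hG.shift l i ν Γ hΓ hk, hG.top j⟩
  tfae_have 3 → 4 := by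
    intro h P hP j z hj hz
    obtain ⟨G, h1, h2, h3⟩ := h P hP j hj
    have key : ∀ (n l : ℕ) (z : C.A P), SelfChain H N P n l z → 2 ≤ n ∧ z ∈ G l n := by
      intro n l z hz
      induction hz with
      | nil l z hz => exact ⟨le_rfl, h1 l hz⟩
      | cons r l i z Γ _ hΓ hk ih =>
        exact ⟨by omega, h2 l i r Γ ih.1 hΓ hk z ih.2⟩
    have h4 := (key _ _ _ hz).2
    rwa [h3, Submodule.mem_bot] at h4
  tfae_have 4 → 1 := by
    intro h
    refine (exists_iff_chain hN).2 fun X j z hz => ?_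
    have hj : 2 ≤ j + 1 := AJChain.two_le (H := H) hz
    obtain ⟨L, hL⟩ := chain_to hN hz
    obtain ⟨Q, hQ1, hQ2⟩ := exists_common (H := H) X L
    obtain ⟨P, hP, hQP⟩ := hS Q
    obtain ⟨f, g, hf, -, hfg⟩ := hQ1.trans' (H := H) hQP
    have h1 := hL P (fun Z hZ => (hQ2 Z hZ).trans' (H := H) hQP) f hf
    rcases Nat.lt_or_ge j 2 with hj2 | hj2
    · obtain rfl : j = 1 := by omega
      cases hz with
      | nil _ _ _ hz => exact hN.abel X z hz
      | cons r _ _ _ _ _ _ hz _ _ => exact absurd (AJChain.two_le (H := H) hz) (by omega)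
    · rw [← hfg z, h P hP j _ hj2 h1, TheoryData.act_map_zero]
  tfae_finish

end Pool.Agent.V11244.BB
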